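import Mathlib
import Pool.Agent.LieInf.Main

/-! MP_36a0ac_al: there is an infinitely generated Lie algebra all of whose proper subalgebras
are finite dimensional.  (Characteristic 3: `L = Ω δ` for a field `Ω` with a derivation `δ`,
bracket `{f, g} = f δ g - g δ f`, over `k = ker δ`.) -/

namespace Pool.Agent.Results.MP_36a0ac_al.Exists

theorem result : ∃ (k : Type) (_ : Field k) (L : Type) (_ : LieRing L) (_ : LieAlgebra k L),
    (¬ ∃ S : Finset L, LieSubalgebra.lieSpan k L (S : Set L) = ⊤) ∧
      ∀ K : LieSubalgebra k L, K ≠ ⊤ → FiniteDimensional k K :=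
  Pool.Agent.LieInf.main

end Pool.Agent.Results.MP_36a0ac_al.Exists
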